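import Pool.Agent.N600.G3.Stm

/-!
# Project G3, task VAL (helper221 for helper600): valuations and integrality over `ℤ`
-/

set_option autoImplicit false

namespace Pool.Agent.N221.G3

open Pool.Agent.N600.G3

universe u

theorem t_val : S_VAL.{u} := by
  intro F _ x hx
  have h : ∃ V : ValuationSubring F, x ∉ V := by
    by_contra hcon
    push Not at hcon
    apply hx
    have h1 : x ∈ (⨅ V : {V : ValuationSubring F // (∅ : Set F) ⊆ V.toSubring},
        V.1.toSubring) := by
      rw [Subring.mem_iInf]
      intro V
      exact hcon V.1
    rw [iInf_valuationSubring_superset] at h1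
    have h2 : IsIntegral (Subring.closure (∅ : Set F)) x := h1
    have : Algebra.IsIntegral ℤ (Subring.closure (∅ : Set F)) := by
      refine ⟨fun y => ?_⟩
      have key : ∀ z : F, z ∈ Subring.closure (∅ : Set F) → ∃ n : ℤ, (n : F) = z := by
        intro z hz
        rwa [Subring.closure_empty, Subring.mem_bot] at hz
      obtain ⟨n, hn⟩ := key y y.2
      have e : y = algebraMap ℤ _ n := by
        apply Subtype.ext
        rw [← hn]
        simp
      rw [e]
      exact isIntegral_algebraMap
    exact isIntegral_trans x h2
  obtain ⟨V, hV⟩ := h
  exact ⟨V.ValueGroup, inferInstance, V.valuation, by rwa [← not_le, V.valuation_le_one_iff]⟩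

end Pool.Agent.N221.G3
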